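import Mathlib
import Pool.Agent.K4H17.Lower.Rec

/-!
# Nonzero lowering maps

For every field `K`, every `d ≥ 1` and all pairwise distinct `θ_0, …, θ_d` in `K` for which the ratio
`(θ_(i-2) - θ_(i+1)) / (θ_(i-1) - θ_i)` is the same for `2 ≤ i ≤ d - 1`, there is a nonzero lowering
map on the space of the polynomials of degree at most `d`.
-/

set_option autoImplicit false

namespace Pool.Agent.Results.MP_87e037_al.NonzeroLoweringMap

open Polynomial Finset Pool.Agent.K4H17.Lower

variable {K : Type*} [Field K]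

/-- the polynomial `τ_i = (λ - θ_0) ⋯ (λ - θ_(i-1))` -/
noncomputable def tau (θ : ℕ → K) (i : ℕ) : K[X] := ∏ h ∈ range i, (X - C (θ h))

/-- the polynomial `ρ_i = (λ - θ_d) ⋯ (λ - θ_(d-i+1))` -/
noncomputable def rho (θ : ℕ → K) (d i : ℕ) : K[X] := ∏ h ∈ range i, (X - C (θ (d - h)))

/-- `Ψ` is a lowering map on the space `V = degreeLE K d` of the polynomials of degree at most `d`:
it sends `τ_0` and `ρ_0` to `0`, and for `1 ≤ i ≤ d` it sends `τ_i` to a multiple of `τ_(i-1)` and
`ρ_i` to a multiple of `ρ_(i-1)` -/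
def IsLowering (θ : ℕ → K) (d : ℕ) (Ψ : degreeLE K d →ₗ[K] degreeLE K d) : Prop :=
  (∀ v : degreeLE K d, (v : K[X]) = tau θ 0 → Ψ v = 0) ∧
  (∀ v : degreeLE K d, (v : K[X]) = rho θ d 0 → Ψ v = 0) ∧
  (∀ i, 1 ≤ i → i ≤ d → ∀ v : degreeLE K d, (v : K[X]) = tau θ i →
    (Ψ v : K[X]) ∈ Submodule.span K {tau θ (i - 1)}) ∧
  (∀ i, 1 ≤ i → i ≤ d → ∀ v : degreeLE K d, (v : K[X]) = rho θ d i →
    (Ψ v : K[X]) ∈ Submodule.span K {rho θ d (i - 1)})

theorem tau_succ (θ : ℕ → K) (i : ℕ) : tau θ (i + 1) = tau θ i * (X - C (θ i)) := by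
  unfold tau
  rw [prod_range_succ]

theorem rho_succ (θ : ℕ → K) (d i : ℕ) : rho θ d (i + 1) = rho θ d i * (X - C (θ (d - i))) := by
  unfold rho
  rw [prod_range_succ]

theorem degree_tau (θ : ℕ → K) (i : ℕ) : (tau θ i).degree = i := by
  induction i with
  | zero => simp [tau]
  | succ i ih =>
    rw [tau_succ, degree_mul, ih, degree_X_sub_C]
    rfl

theorem monic_tau (θ : ℕ → K) (i : ℕ) : (tau θ i).Monic :=
  monic_prod_of_monic _ _ fun h _ => monic_X_sub_C (θ h)

/-- the expansion of `ρ_i` -/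
theorem rho_eq (θ : ℕ → K) (d i : ℕ) :
    rho θ d i = ∑ j ∈ range (i + 1), cf θ d i j • tau θ j := by
  induction i with
  | zero => simp [rho, tau, cf]
  | succ i ih =>
    rw [rho_succ, ih, sum_mul]
    have h1 : ∀ j, cf θ d i j • tau θ j * (X - C (θ (d - i))) =
        cf θ d i j • tau θ (j + 1) + ((θ j - θ (d - i)) * cf θ d i j) • tau θ j := by
      intro j
      rw [tau_succ]
      simp only [smul_eq_C_mul, C_mul, C_sub]
      ring
    simp only [h1, sum_add_distrib]
    rw [sum_range_succ' (fun j => cf θ d (i + 1) j • tau θ j)]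
    rw [sum_range_succ' (fun j => ((θ j - θ (d - i)) * cf θ d i j) • tau θ j) i]
    have h2 : ∀ j, cf θ d (i + 1) (j + 1) • tau θ (j + 1) = cf θ d i j • tau θ (j + 1) +
        ((θ (j + 1) - θ (d - i)) * cf θ d i (j + 1)) • tau θ (j + 1) := by
      intro j
      rw [cf, add_smul]
    simp only [h2, sum_add_distrib]
    rw [sum_range_succ (fun j => ((θ (j + 1) - θ (d - i)) * cf θ d i (j + 1)) • tau θ (j + 1)) i,
      cf_lt θ d i (i + 1) (by omega), cf]
    simp only [mul_zero, zero_smul, add_zero]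
    ring

/-- the polynomials `τ_i` as a sequence -/
noncomputable def tauSeq (θ : ℕ → K) : Polynomial.Sequence K where
  elems' := tau θ
  degree_eq' := degree_tau θ

theorem tauSeq_unit (θ : ℕ → K) (i : ℕ) : IsUnit (tauSeq θ i).leadingCoeff := by
  have : (tauSeq θ i).leadingCoeff = 1 := monic_tau θ i
  rw [this]
  exact isUnit_one

/-- the basis of the `τ_i` -/
noncomputable def tauBasis (θ : ℕ → K) : Module.Basis ℕ K K[X] :=
  (tauSeq θ).basis (tauSeq_unit θ)

theorem tauBasis_apply (θ : ℕ → K) (i : ℕ) : tauBasis θ i = tau θ i := by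
  unfold tauBasis
  rw [Polynomial.Sequence.basis_eq_self]
  rfl

/-- the lowering map on all polynomials -/
noncomputable def low (θ : ℕ → K) (d : ℕ) : K[X] →ₗ[K] K[X] :=
  (tauBasis θ).constr K fun i => ph θ d i • tau θ (i - 1)

theorem low_tau (θ : ℕ → K) (d i : ℕ) : low θ d (tau θ i) = ph θ d i • tau θ (i - 1) := by
  unfold low
  rw [← tauBasis_apply θ i, Module.Basis.constr_basis]

theorem low_rho (x y b g : K) (d i : ℕ) (hi : i + 1 ≤ d) :
    low (thSeq x y b g) d (rho (thSeq x y b g) d (i + 1)) =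
      ph (thSeq x y b g) d (i + 1) • rho (thSeq x y b g) d i := by
  set θ := thSeq x y b g with hθ
  rw [rho_eq, map_sum, sum_range_succ', rho_eq, smul_sum]
  simp only [map_smul, low_tau, ph_zero, zero_smul, smul_zero, add_zero, Nat.add_sub_cancel]
  refine sum_congr rfl fun j hj => ?_
  rw [mem_range] at hj
  rw [smul_smul, smul_smul, mul_comm, hθ, cf_lower_all x y b g d i j hi (by omega)]

theorem tau_mem (θ : ℕ → K) (d i : ℕ) (hi : i ≤ d) : tau θ i ∈ degreeLE K d := by
  rw [mem_degreeLE, degree_tau]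
  exact_mod_cast hi

theorem low_mem (θ : ℕ → K) (d : ℕ) (p : K[X]) (hp : p ∈ degreeLE K d) :
    low θ d p ∈ degreeLE K d := by
  have h := (tauSeq θ).span_degreeLE (m := d) (fun i _ => tauSeq_unit θ i)
  rw [← h] at hp
  induction hp using Submodule.span_induction with
  | mem x hx =>
    obtain ⟨i, hi, rfl⟩ := hx
    have h1 : low θ d (tauSeq θ i) = ph θ d i • tau θ (i - 1) := low_tau θ d i
    rw [h1]
    exact Submodule.smul_mem _ _ (tau_mem θ d (i - 1) ((Nat.sub_le _ _).trans hi))
  | zero => rw [map_zero]; exact zero_mem _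
  | add x y _ _ hx hy => rw [map_add]; exact add_mem hx hy
  | smul a x _ hx => rw [map_smul]; exact Submodule.smul_mem _ _ hx

/-- **Q1 is true.** For every field `K`, every `d ≥ 1` and all pairwise distinct
`θ_0, …, θ_d` in `K` satisfying condition (*), there exists a nonzero lowering map on the space of
the polynomials of degree at most `d`. -/
theorem result (K : Type*) [Field K] (d : ℕ) (hd : 1 ≤ d) (θ : ℕ → K)
    -- `θ_0, …, θ_d` are pairwise distinct
    (hdist : ∀ i j, i ≤ d → j ≤ d → θ i = θ j → i = j)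
    -- condition (*)
    (hstar : ∃ r : K, ∀ i, 2 ≤ i → i ≤ d - 1 →
      (θ (i - 2) - θ (i + 1)) * (θ (i - 1) - θ i)⁻¹ = r) :
    ∃ Ψ : degreeLE K d →ₗ[K] degreeLE K d, Ψ ≠ 0 ∧ IsLowering θ d Ψ := by
  obtain ⟨r, hr⟩ := hstar
  set b : K := r - 1 with hb
  set g : K := θ 2 - b * θ 1 + θ 0 with hg
  have hrec : ∀ n, n + 2 ≤ d → θ (n + 2) = b * θ (n + 1) - θ n + g := by
    intro n
    induction n with
    | zero => intro _; rw [hg]; ring
    | succ n ih =>
      intro h
      have h1 := ih (by omega)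
      have h2 := hr (n + 2) (by omega) (by omega)
      have a1 : n + 2 - 2 = n := by omega
      have a2 : n + 2 - 1 = n + 1 := by omega
      rw [a1, a2] at h2
      have h3 : θ (n + 1) - θ (n + 2) ≠ 0 := by
        intro h0
        have := hdist (n + 1) (n + 2) (by omega) (by omega) (sub_eq_zero.1 h0)
        omega
      have h4 : θ n - θ (n + 2 + 1) = r * (θ (n + 1) - θ (n + 2)) := by
        rw [← h2, mul_assoc, inv_mul_cancel₀ h3, mul_one]
      have a3 : n + 1 + 2 = n + 2 + 1 := by omega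
      have a4 : n + 1 + 1 = n + 2 := by omega
      rw [a3, a4, hb]
      rw [hb] at h1
      linear_combination -h4 + h1
  have hsq : ∀ n, n ≤ d → thSeq (θ 0) (θ 1) b g n = θ n := by
    intro n
    induction n using Nat.strong_induction_on with
    | _ n ih =>
      intro hn
      match n with
      | 0 => simp [thSeq]
      | 1 => simp [thSeq]
      | (k + 2) => rw [thSeq, ih (k + 1) (by omega) (by omega), ih k (by omega) (by omega), hrec k hn]
  set Θ : ℕ → K := thSeq (θ 0) (θ 1) b g with hΘ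
  have htau : ∀ i, i ≤ d → tau θ i = tau Θ i := by
    intro i hi
    refine prod_congr rfl fun h hh => ?_
    rw [mem_range] at hh
    rw [hsq h (by omega)]
  have hrho : ∀ i, rho θ d i = rho Θ d i := by
    intro i
    refine prod_congr rfl fun h hh => ?_
    rw [hsq (d - h) (by omega)]
  refine ⟨(low Θ d).restrict (low_mem Θ d), ?_, ?_, ?_, ?_, ?_⟩
  · intro h0
    have h1 := congrArg (fun f : degreeLE K d →ₗ[K] degreeLE K d =>
      ((f ⟨tau Θ 1, tau_mem Θ d 1 hd⟩ : degreeLE K d) : K[X])) h0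
    simp only [LinearMap.coe_restrict_apply, LinearMap.zero_apply, ZeroMemClass.coe_zero] at h1
    rw [low_tau] at h1
    have h2 : tau Θ (1 - 1) ≠ 0 := (monic_tau Θ 0).ne_zero
    rcases smul_eq_zero.1 h1 with h3 | h3
    · have h4 : ph Θ d 1 = Θ 0 - Θ d := by simp [ph]
      rw [h4, hsq 0 (by omega), hsq d le_rfl, sub_eq_zero] at h3
      have := hdist 0 d (by omega) le_rfl h3
      omega
    · exact h2 h3
  · intro v hv
    apply Subtype.ext
    rw [LinearMap.coe_restrict_apply, hv, htau 0 (by omega), low_tau, ph_zero, zero_smul]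
    rfl
  · intro v hv
    apply Subtype.ext
    have h1 : rho θ d 0 = tau Θ 0 := by simp [rho, tau]
    rw [LinearMap.coe_restrict_apply, hv, h1, low_tau, ph_zero, zero_smul]
    rfl
  · intro i h1 hi v hv
    rw [LinearMap.coe_restrict_apply, hv, htau i hi, low_tau, htau (i - 1) (by omega)]
    exact Submodule.smul_mem _ _ (Submodule.mem_span_singleton_self _)
  · intro i h1 hi v hv
    obtain ⟨k, rfl⟩ : ∃ k, i = k + 1 := ⟨i - 1, by omega⟩
    have h2 := low_rho (θ 0) (θ 1) b g d k hi
    rw [← hΘ] at h2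
    rw [LinearMap.coe_restrict_apply, hv, hrho (k + 1), h2, ← hrho k]
    exact Submodule.smul_mem _ _ (Submodule.mem_span_singleton_self _)

end Pool.Agent.Results.MP_87e037_al.NonzeroLoweringMap
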